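import Pool.Agent.H247.UC.Stm
import Pool.Agent.H247.LC.Man2A

/-!
# Uniform version of the local non-closing theorem (helper247), leaf CORE (helper353)

An adaptation of `Pool.Agent.H247.LC.Man2A.coreA`.
-/

set_option autoImplicit false
set_option linter.unusedSectionVars false

open scoped Manifold ContDiff Topology
open Set

namespace Pool.Agent.H247.UC.Core

open Pool.Agent.H718R2 (E)
open Pool.Agent.H718R2.G (V DiffM StrongData strongNbhd strongTop IsRec IsPer transplant)
open Pool.Agent.Y640.CLA (SmA pw pw_nonneg pw_mono pw_scale)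
open Pool.Agent.H247.LC
open Pool.Agent.H247.LC.Man2
open Pool.Agent.H247.LC.Man2A

theorem core : Pool.Agent.H247.UC.S_CORE := by
  intro α h0 hcm hcb X _ _ P x ρ δ hρ hδ hcl l
  classical
  obtain ⟨δ₂, hδ₂, hcomp⟩ := hcm X x ρ (min δ (1 / 2)) (2 * l + 1) hρ (by positivity)
  refine ⟨δ₂, hδ₂, ?_⟩
  intro ρ₁ hρ₁ hρ₁ρ hdis Gt hGinj hGoff hGC hGb hGh a₀ ha₀ u₀ hu₀ n₀ hn₀ hper
  set T : ℤ → X → X := fun a u => (P ^ (-(a + 1))) (Gt ((P ^ a) u)) with hT
  have hTe : ∀ a u, (P ^ (a + 1)) (T a u) = Gt ((P ^ a) u) := by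
    intro a u
    simp only [hT]
    rw [perm_neg']
  have hTinj : ∀ a, Function.Injective (T a) := by
    intro a u v h
    exact (P ^ a).injective (hGinj ((P ^ (-(a + 1))).injective h))
  have hsub : Metric.ball x ρ₁ ⊆ Metric.ball x (2 * ρ₁) :=
    Metric.ball_subset_ball (by linarith)
  have hTid : ∀ a : ℤ, |a| ≤ l → ∀ u ∈ Metric.ball x (2 * ρ₁), u ∉ Metric.ball x ρ₁ →
      T a u = u := by
    intro a ha u hu hu'
    have h1 : Gt ((P ^ a) u) = P ((P ^ a) u) := by
      apply hGoff
      intro a' ha' u' hu'' he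
      have h2 := perm_dis P _ l hdis a a' ha ha' u u' hu (hsub hu'') he
      rw [h2.2] at hu'
      exact hu' hu''
    simp only [hT]
    rw [h1, ← perm_succ, perm_neg]
  have haj : ∀ j : ℕ, j ≤ 2 * l → |(j : ℤ) - l| ≤ l := by
    intro j hj
    rw [abs_le]
    constructor <;> omega
  set e : ℕ → X → X := fun j u => if u ∈ Metric.ball x ρ₁ then T ((j : ℤ) - l) u - u else 0
    with he
  have he1 : ∀ j ≤ 2 * l, ∀ u ∈ Metric.ball x (2 * ρ₁), e j u = T ((j : ℤ) - l) u - u := by
    intro j hj u hu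
    simp only [he]
    by_cases h : u ∈ Metric.ball x ρ₁
    · rw [if_pos h]
    · rw [if_neg h, hTid _ (haj j hj) u hu h, sub_self]
  have he0 : ∀ j u, ρ₁ ≤ ‖u - x‖ → e j u = 0 := by
    intro j u hu
    simp only [he]
    rw [if_neg]
    rw [mem_ball_iff_norm, not_lt]
    exact hu
  have hev : ∀ j ≤ 2 * l, ∀ u ∈ Metric.ball x (2 * ρ₁),
      e j =ᶠ[𝓝 u] fun u => T ((j : ℤ) - l) u - u := by
    intro j hj u hu
    filter_upwards [Metric.isOpen_ball.mem_nhds hu] with v hv
    exact he1 j hj v hv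
  have hev0 : ∀ j, ∀ u ∉ Metric.closedBall x ρ₁, e j =ᶠ[𝓝 u] fun _ => 0 := by
    intro j u hu
    filter_upwards [Metric.isClosed_closedBall.isOpen_compl.mem_nhds hu] with v hv
    rw [mem_compl_iff, mem_closedBall_iff_norm, not_le] at hv
    exact he0 j v hv.le
  have hcb' : ∀ u, ‖u - x‖ ≤ ρ₁ → u ∈ Metric.ball x (2 * ρ₁) := by
    intro u hu
    rw [mem_ball_iff_norm]
    linarith
  have hcb2 : ∀ u, ‖u - x‖ ≤ ρ₁ → u ∈ Metric.closedBall x ρ₁ := by
    intro u hu
    rw [mem_closedBall_iff_norm]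
    exact hu
  have heC : ∀ j < 2 * l + 1, ContDiff ℝ 1 (e j) := by
    intro j hj
    rw [contDiff_iff_contDiffAt]
    intro u
    by_cases hu : u ∈ Metric.closedBall x ρ₁
    · exact (((hGC _ (haj j (by omega))).sub contDiff_id).contDiffAt).congr_of_eventuallyEq
        (hev j (by omega) u (hcb' u (mem_closedBall_iff_norm.1 hu)))
    · exact contDiffAt_const.congr_of_eventuallyEq (hev0 j u hu)
  have heS : ∀ j < 2 * l + 1, SmA α (fun _ => δ₂) (e j) := by
    intro j hj
    apply smA_of_ball h0 hδ₂ hρ₁ (heC j hj) (he0 j)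
    · intro u hu
      rw [he1 j (by omega) u (hcb' u hu), (hev j (by omega) u (hcb' u hu)).fderiv_eq]
      exact (hGb _ (haj j (by omega)) u (hcb2 u hu)).2
    · intro u hu u' hu'
      rw [(hev j (by omega) u (hcb' u hu)).fderiv_eq,
        (hev j (by omega) u' (hcb' u' hu')).fderiv_eq]
      exact hGh _ (haj j (by omega)) u (hcb2 u hu) u' (hcb2 u' hu')
  obtain ⟨hE1, -⟩ := hcomp e heS (fun j _ u hu => he0 j u (hρ₁ρ.trans hu))
  have hcmp0 : ∀ j u, ρ₁ ≤ ‖u - x‖ → cmp e j u = u := by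
    intro j
    induction j with
    | zero => intro u _; rfl
    | succ j ih =>
      intro u hu
      show cmp e j u + e j (cmp e j u) = u
      rw [ih u hu, he0 j u hu, add_zero]
  have hE2 : ∀ u, ρ₁ ≤ ‖u - x‖ → cmp e (2 * l + 1) u = u := hcmp0 (2 * l + 1)
  have hball : ∀ j ≤ 2 * l, ∀ u ∈ Metric.ball x ρ₁, u + e j u ∈ Metric.ball x ρ₁ := by
    intro j hj u hu
    by_contra hcon
    have h1 : ‖e j u‖ ≤ ρ₁ / 2 := by
      rw [he1 j hj u (hsub hu)]
      exact (hGb _ (haj j hj) u (Metric.ball_subset_closedBall hu)).1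
    have h3 : u + e j u ∈ Metric.ball x (2 * ρ₁) := by
      rw [mem_ball_iff_norm] at hu ⊢
      have h4 : u + e j u - x = (u - x) + e j u := by abel
      rw [h4]
      have := norm_add_le (u - x) (e j u)
      linarith
    have h5 : u + e j u = T ((j : ℤ) - l) u := by
      rw [he1 j hj u (hsub hu)]
      abel
    have h6 := hTid _ (haj j hj) _ h3 hcon
    have h7 : u + e j u = u := by
      apply hTinj ((j : ℤ) - l)
      rw [h6, h5]
    rw [h7] at hcon
    exact hcon hu
  have hcinj : Function.Injective (cmp e (2 * l + 1)) := by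
    intro u v huv
    have h1 := hE1.lip (fun _ => min_le_right δ (1 / 2)) u v
    have h2 : (cmp e (2 * l + 1) u - u) - (cmp e (2 * l + 1) v - v) = v - u := by
      rw [huv]
      abel
    rw [h2, norm_sub_rev v u] at h1
    have h4 : ‖u - v‖ = 0 := by
      have := norm_nonneg (u - v)
      linarith
    exact sub_eq_zero.1 (norm_eq_zero.1 h4)
  set Gl : X → X := fun y => (P ^ (l : ℤ)) (Gt ((P ^ (-(l : ℤ))) y)) with hGl
  have hGlinj : Function.Injective Gl := by
    intro u v h
    exact (P ^ (-(l : ℤ))).injective (hGinj ((P ^ (l : ℤ)).injective h))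
  have hGlit : ∀ (m : ℕ) y, Gl^[m] ((P ^ (l : ℤ)) y) = (P ^ (l : ℤ)) (Gt^[m] y) := by
    intro m
    induction m with
    | zero => intro y; rfl
    | succ m ih =>
      intro y
      rw [Function.iterate_succ_apply, Function.iterate_succ_apply, ← ih]
      congr 1
      simp only [hGl]
      rw [perm_neg]
  obtain ⟨u, hu, n', hn', hfin⟩ := hcb X (P : X → X) Gl (Metric.ball x ρ₁) (2 * l) e P.injective
    hGlinj (fun j h1 h2 u hu hj => hdis j h1 h2 u (hsub hu) (hsub hj)) hball
    (by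
      intro j hj u hu
      have h1 : u + e j u = T ((j : ℤ) - l) u := by
        rw [he1 j hj u (hsub hu)]
        abel
      rw [h1, ← perm_nat, ← perm_nat]
      simp only [hGl]
      rw [← perm_add, show -(l : ℤ) + (j : ℤ) = (j : ℤ) - l by ring, ← hTe, ← perm_add]
      congr 2
      push_cast
      ring)
    (by
      intro y hy
      simp only [hGl]
      rw [hGoff, ← perm_succ, ← perm_add,
        show (l : ℤ) + (-(l : ℤ) + 1) = 1 by ring, perm_one]
      intro a ha u hu hau
      rw [abs_le] at ha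
      refine hy (a + l).toNat (by omega) u hu ?_
      rw [← perm_nat, Int.toNat_of_nonneg (by omega), add_comm, perm_add, ← hau, perm_neg'])
    (by
      intro v hv
      rw [mem_ball_iff_norm, not_lt] at hv
      exact hE2 v hv)
    hcinj ((P ^ (l : ℤ)) ((P ^ a₀) u₀)) n₀
    (by
      have ha := ha₀
      rw [abs_le] at ha
      refine ⟨(a₀ + l).toNat, by omega, u₀, hu₀, ?_⟩
      rw [← perm_nat, Int.toNat_of_nonneg (by omega), add_comm, perm_add])
    hn₀
    (by rw [hGlit, hper])
  refine hcl (fun u => cmp e (2 * l + 1) u - u) (hE1.mono fun _ => min_le_left _ _) ?_ u ?_ n'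
    hn' ?_
  · intro u hu
    rw [hE2 u (hρ₁ρ.trans hu), sub_self]
  · rw [mem_ball_iff_norm] at hu
    exact hu.trans_le hρ₁ρ
  · have h1 : (fun v => P (v + (cmp e (2 * l + 1) v - v))) =
        fun v => P (cmp e (2 * l + 1) v) := by
      funext v
      congr 1
      abel
    rw [h1]
    exact hfin

end Pool.Agent.H247.UC.Core
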