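import Pool.Agent.H247.UC.UX

/-!
# Uniform version: the manifold
-/

set_option autoImplicit false
set_option linter.unusedSectionVars false

open scoped Manifold ContDiff Topology
open Set

namespace Pool.Agent.H247.UC

open Pool.Agent.H718R2.G (V DiffM StrongData strongNbhd strongTop IsRec IsPer transplant)
open Pool.Agent.Y640.CLA (SmA pw pw_nonneg pw_mono pw_scale)
open Pool.Agent.H247.LC (S_COMPA S_COMB Tot iota x₀)
open Pool.Agent.H247.LC.Man (exists_lin exists_chart exists_unc iota_source iota_smooth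
  iota_symm_smooth)
open Pool.Agent.H247.LC.Man2 (jm jm_source c_jm jm_inj jm_c jm_cont jm_open HH_jm HH perm_nat
  comp_contDiff2)
open Pool.Agent.H247.LC.Man2A (smA_of_ball comp_contDiff1 norm_conj)

/-- The data of a strong neighbourhood given by one chart, one compact set and one number. -/
def oneChart {n : ℕ} {M : Type} [TopologicalSpace M] [ChartedSpace (V n) M]
    (φ : OpenPartialHomeomorph M (V n)) (hφ : φ ∈ IsManifold.maximalAtlas (𝓡 n) ∞ M) (K : Set M)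
    (hK : IsCompact K) (hKφ : K ⊆ φ.source) (C : ℝ) (hC : 0 < C) : StrongData n M where
  ι := Unit
  φ := fun _ => φ
  ψ := fun _ => φ
  K := fun _ => K
  ε := fun _ => C
  φ_mem := fun _ => hφ
  ψ_mem := fun _ => hφ
  lf := locallyFinite_of_finite _
  compact := fun _ => hK
  sub := fun _ => hKφ
  pos := fun _ => hC

theorem setupU (k : ℕ) (Fh : Tot k ≃ₜ Tot k) (hFh : ContDiff ℝ ∞ Fh)
    (hFh' : ContDiff ℝ ∞ Fh.symm) (R : ℝ) (hR : ∀ u, R ≤ ‖u‖ → Fh u = u)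
    (M : Type) [TopologicalSpace M] [T2Space M]
    [ChartedSpace (V (5 + k)) M] [IsManifold (𝓡 (5 + k)) ∞ M] (p : M) (B : Set M)
    (hB : B ∈ 𝓝 p) :
    ∃ (F : DiffM (5 + k) M ⊤) (φ c : OpenPartialHomeomorph M (V (5 + k)))
      (L : Tot k ≃L[ℝ] V (5 + k)), φ ∈ IsManifold.maximalAtlas (𝓡 (5 + k)) ∞ M ∧
      φ.target = univ ∧ φ.source ⊆ B ∧ c.target = univ ∧
      (∀ u, jm c L u = jm φ L (iota k u)) ∧
      (∀ y ∉ jm φ L '' Metric.closedBall 0 R, F y = y) ∧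
      ∀ u, F (jm φ L u) = jm φ L (Fh u) := by
  obtain ⟨L⟩ := exists_lin k
  obtain ⟨φ, hφ, hφt, hφs⟩ := exists_chart (n := 5 + k) p B hB
  obtain ⟨c, hc, hct, hcs, hcsymm⟩ := exists_unc k φ hφ hφt L
  have hφt' : ∀ v, v ∈ φ.target := fun v => by rw [hφt]; trivial
  set Fn : V (5 + k) ≃ₜ V (5 + k) := (L.symm.toHomeomorph.trans Fh).trans L.toHomeomorph with hFnd
  have hFn : ∀ v, Fn v = L (Fh (L.symm v)) := fun v => rfl
  have hFnsm : ContDiff ℝ ∞ Fn := L.contDiff.comp (hFh.comp L.symm.contDiff)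
  have hFnsm' : ContDiff ℝ ∞ Fn.symm := L.contDiff.comp (hFh'.comp L.symm.contDiff)
  set A : Set (V (5 + k)) := L '' Metric.closedBall 0 R with hAd
  have hA : IsCompact A := (isCompact_closedBall 0 R).image L.continuous
  have hAc : IsClosed (φ.symm '' A) :=
    (hA.image_of_continuousOn (φ.continuousOn_symm.mono (fun v _ => hφt' v))).isClosed
  have hid : ∀ v ∉ A, Fn v = v := by
    intro v hv
    have h1 : R ≤ ‖L.symm v‖ := by
      by_contra h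
      exact hv ⟨L.symm v, by simpa using (not_le.mp h).le, L.apply_symm_apply v⟩
    rw [hFn, hR _ h1, L.apply_symm_apply]
  obtain ⟨F, hF1, hF2⟩ := transplant hφ (fun v _ => hφt' v) hAc Fn hFnsm hFnsm' hid
  refine ⟨F, φ, c, L, hφ, hφt, hφs, hct, hcsymm, ?_, ?_⟩
  · intro y hy
    apply hF2
    rintro ⟨_, ⟨u, hu, rfl⟩, rfl⟩
    exact hy ⟨u, hu, rfl⟩
  · intro u
    show F (φ.symm (L u)) = φ.symm (L (Fh u))
    rw [hF1 _ (φ.map_target (hφt' _)), φ.right_inv (hφt' _), hFn, L.symm_apply_apply]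

section mani

variable {k : ℕ} {M : Type} [TopologicalSpace M] [ChartedSpace (V (5 + k)) M]
  {φ : OpenPartialHomeomorph M (V (5 + k))} {L : Tot k ≃L[ℝ] V (5 + k)}

/-- the difference of `G` and `F` in the chart `φ` -/
def dif (φ : OpenPartialHomeomorph M (V (5 + k))) (F G : M → M) (v : V (5 + k)) : V (5 + k) :=
  φ (G (φ.symm v)) - φ (F (φ.symm v))

/-- `G` preserves the domain of the chart -/
theorem pres (hφt : φ.target = univ) (F : DiffM (5 + k) M ⊤) (Fh : Tot k ≃ₜ Tot k)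
    (hF : ∀ u, F (jm φ L u) = jm φ L (Fh u)) (W₀ : Set (Tot k)) {r : ℕ∞}
    (G : DiffM (5 + k) M r) (hG : ∀ y ∉ jm φ L '' W₀, G y = F y) (u : Tot k) :
    G (jm φ L u) ∈ φ.source := by
  by_cases h : jm φ L u ∈ jm φ L '' W₀
  · by_cases h2 : F.symm (G (jm φ L u)) ∈ jm φ L '' W₀
    · obtain ⟨v, _, hv⟩ := h2
      have h3 : G (jm φ L u) = F (jm φ L v) := by
        rw [hv]
        exact (F.apply_symm_apply _).symm
      rw [h3, hF]
      exact jm_source hφt _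
    · have h3 := hG _ h2
      have h4 : F (F.symm (G (jm φ L u))) = G (jm φ L u) := F.apply_symm_apply _
      rw [h4] at h3
      have h5 := G.injective h3
      rw [h5] at h2
      exact absurd h h2
  · rw [hG _ h, hF]
    exact jm_source hφt _

theorem pres' (hφt : φ.target = univ) (F : DiffM (5 + k) M ⊤) (Fh : Tot k ≃ₜ Tot k)
    (hF : ∀ u, F (jm φ L u) = jm φ L (Fh u)) (W₀ : Set (Tot k)) {r : ℕ∞}
    (G : DiffM (5 + k) M r) (hG : ∀ y ∉ jm φ L '' W₀, G y = F y) (v : V (5 + k)) :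
    G (φ.symm v) ∈ φ.source := by
  have h1 := pres hφt F Fh hF W₀ G hG (L.symm v)
  unfold jm at h1
  rwa [L.apply_symm_apply] at h1

theorem dif_F (hφt : φ.target = univ) (F : DiffM (5 + k) M ⊤) (Fh : Tot k ≃ₜ Tot k)
    (hF : ∀ u, F (jm φ L u) = jm φ L (Fh u)) (u : Tot k) : φ (F (jm φ L u)) = L (Fh u) := by
  rw [hF, c_jm hφt]

theorem dif_eq (hφt : φ.target = univ) (F : DiffM (5 + k) M ⊤) (Fh : Tot k ≃ₜ Tot k)
    (hF : ∀ u, F (jm φ L u) = jm φ L (Fh u)) (G : M → M) (u : Tot k) :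
    L.symm (φ (G (jm φ L u))) - Fh u = L.symm (dif φ F G (L u)) := by
  have h1 : dif φ F G (L u) = φ (G (jm φ L u)) - φ (F (jm φ L u)) := rfl
  rw [h1, dif_F hφt F Fh hF, map_sub, L.symm_apply_apply]

theorem dif_C1 [IsManifold (𝓡 (5 + k)) ∞ M] (F : DiffM (5 + k) M ⊤)
    (hφ : φ ∈ IsManifold.maximalAtlas (𝓡 (5 + k)) ∞ M) (hφt : φ.target = univ)
    (Fh : Tot k ≃ₜ Tot k) (hFh : ContDiff ℝ ∞ Fh)
    (hF : ∀ u, F (jm φ L u) = jm φ L (Fh u)) (W₀ : Set (Tot k))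
    (G : DiffM (5 + k) M 1) (hG : ∀ y ∉ jm φ L '' W₀, G y = F y) :
    ContDiff ℝ 1 (dif φ F G) := by
  have hgG : ContDiff ℝ 1 (φ ∘ G ∘ φ.symm) :=
    comp_contDiff1 hφ hφt hφ G (pres' hφt F Fh hF W₀ G hG)
  have hgC : ContDiff ℝ 1 (fun u : Tot k => L.symm (φ (G (jm φ L u)))) :=
    L.symm.contDiff.comp (hgG.comp L.contDiff)
  have h1 : dif φ F G = fun v => L (L.symm (φ (G (jm φ L (L.symm v)))) - Fh (L.symm v)) := by
    funext v
    rw [dif_eq hφt F Fh hF, L.apply_symm_apply, L.apply_symm_apply]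
  rw [h1]
  exact L.contDiff.comp ((hgC.comp L.symm.contDiff).sub
    ((hFh.of_le (by exact_mod_cast le_top)).comp L.symm.contDiff))

theorem dif_fd {d : V (5 + k) → V (5 + k)} (hd : ContDiff ℝ 1 d) (u : Tot k) :
    fderiv ℝ (fun u : Tot k => L.symm (d (L u))) u =
      (L.symm : V (5 + k) →L[ℝ] Tot k) ∘L (fderiv ℝ d (L u)) ∘L (L : Tot k →L[ℝ] V (5 + k)) :=
  ((L.symm : V (5 + k) →L[ℝ] Tot k).hasFDerivAt.comp u
    (((hd.differentiable one_ne_zero) (L u)).hasFDerivAt.comp u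
      (L : Tot k →L[ℝ] V (5 + k)).hasFDerivAt)).fderiv

theorem red [IsManifold (𝓡 (5 + k)) ∞ M] {α : ℝ} (F : DiffM (5 + k) M ⊤)
    (hφ : φ ∈ IsManifold.maximalAtlas (𝓡 (5 + k)) ∞ M) (hφt : φ.target = univ)
    (Fh : Tot k ≃ₜ Tot k)
    (hF : ∀ u, F (jm φ L u) = jm φ L (Fh u)) (W₀ : Set (Tot k)) (C' : ℝ)
    (hW₀ : ∀ g : Tot k → Tot k, Function.Injective g → ContDiff ℝ 1 g → (∀ y ∉ W₀, g y = Fh y) →
      (∀ y y', ‖fderiv ℝ (fun z => g z - Fh z) y - fderiv ℝ (fun z => g z - Fh z) y'‖ ≤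
        C' * pw α ‖y - y'‖) → ∀ y ∈ W₀, ∀ n : ℕ, 1 ≤ n → g^[n] y ≠ y)
    (G : DiffM (5 + k) M 1) (hG : ∀ y ∉ jm φ L '' W₀, G y = F y)
    (hH : ∀ u u' : Tot k, ‖fderiv ℝ (fun u : Tot k => L.symm (dif φ F G (L u))) u -
      fderiv ℝ (fun u : Tot k => L.symm (dif φ F G (L u))) u'‖ ≤ C' * pw α ‖u - u'‖) :
    ∀ y ∈ jm φ L '' W₀, ¬ IsPer G y := by
  rintro _ ⟨u₀, hu₀, rfl⟩ ⟨n, hn, hper⟩
  have hGs := pres hφt F Fh hF W₀ G hG
  set g : Tot k → Tot k := fun u => L.symm (φ (G (jm φ L u))) with hg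
  have hjg : ∀ u, jm φ L (g u) = G (jm φ L u) := fun u => jm_c (hGs u)
  have hgi : Function.Injective g := by
    intro u u' h
    apply jm_inj hφt (L := L)
    apply G.injective
    show G (jm φ L u) = G (jm φ L u')
    rw [← hjg, ← hjg, h]
  have hgG : ContDiff ℝ 1 (φ ∘ G ∘ φ.symm) :=
    comp_contDiff1 hφ hφt hφ G (pres' hφt F Fh hF W₀ G hG)
  have hgC : ContDiff ℝ 1 g := L.symm.contDiff.comp (hgG.comp L.contDiff)
  have hgW : ∀ y ∉ W₀, g y = Fh y := by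
    intro y hy
    apply jm_inj hφt (L := L)
    rw [hjg, hG, hF]
    rintro ⟨z, hz, hzy⟩
    rw [jm_inj hφt hzy] at hz
    exact hy hz
  have hdf : (fun z => g z - Fh z) = fun u : Tot k => L.symm (dif φ F G (L u)) :=
    funext fun u => dif_eq hφt F Fh hF G u
  have hit : ∀ (m : ℕ) u, (G : M → M)^[m] (jm φ L u) = jm φ L (g^[m] u) := by
    intro m
    induction m with
    | zero => intro u; rfl
    | succ m ih =>
      intro u
      rw [Function.iterate_succ_apply, ← hjg, ih, Function.iterate_succ_apply]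
  refine hW₀ g hgi hgC hgW ?_ u₀ hu₀ n hn ?_
  · intro y y'
    rw [hdf]
    exact hH y y'
  · apply jm_inj hφt (L := L)
    rw [← hit, hper]

theorem scale {α : ℝ} (h0 : 0 < α) (h1' : α ≤ 1) (L : Tot k ≃L[ℝ] V (5 + k)) (u u' : Tot k) :
    ‖L u - L u'‖ ^ α ≤ (1 + ‖(L : Tot k →L[ℝ] V (5 + k))‖) * pw α ‖u - u'‖ := by
  have h4 : ‖L u - L u'‖ ≤ (1 + ‖(L : Tot k →L[ℝ] V (5 + k))‖) * ‖u - u'‖ := by
    rw [← map_sub]
    refine ((L : Tot k →L[ℝ] V (5 + k)).le_opNorm _).trans ?_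
    gcongr
    linarith
  refine (pw_mono h0 (norm_nonneg _) h4).trans (pw_scale h1' ?_ (norm_nonneg _))
  have := norm_nonneg (L : Tot k →L[ℝ] V (5 + k))
  linarith

/-- Hölder bounds in linear coordinates -/
theorem holL {α : ℝ} (h0 : 0 < α) (h1' : α ≤ 1) {d : V (5 + k) → V (5 + k)} (hd : ContDiff ℝ 1 d)
    {C : ℝ} (hC : 0 < C) {u u' : Tot k}
    (hH : ‖fderiv ℝ d (L u) - fderiv ℝ d (L u')‖ ≤ C * ‖L u - L u'‖ ^ α) :
    ‖fderiv ℝ (fun u : Tot k => L.symm (d (L u))) u -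
      fderiv ℝ (fun u : Tot k => L.symm (d (L u))) u'‖ ≤
      ((1 + ‖(L.symm : V (5 + k) →L[ℝ] Tot k)‖) *
        (C * (1 + ‖(L : Tot k →L[ℝ] V (5 + k))‖) ^ 2)) * pw α ‖u - u'‖ := by
  rw [dif_fd hd, dif_fd hd, ← ContinuousLinearMap.comp_sub, ← ContinuousLinearMap.sub_comp]
  refine (norm_conj L _).trans ?_
  calc (1 + ‖(L.symm : V (5 + k) →L[ℝ] Tot k)‖) *
      (‖fderiv ℝ d (L u) - fderiv ℝ d (L u')‖ *
        (1 + ‖(L : Tot k →L[ℝ] V (5 + k))‖))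
      ≤ (1 + ‖(L.symm : V (5 + k) →L[ℝ] Tot k)‖) *
        ((C * ((1 + ‖(L : Tot k →L[ℝ] V (5 + k))‖) * pw α ‖u - u'‖)) *
          (1 + ‖(L : Tot k →L[ℝ] V (5 + k))‖)) := by
        gcongr
        exact hH.trans (mul_le_mul_of_nonneg_left (scale h0 h1' L u u') hC.le)
    _ = _ := by ring

/-- the case of Hölder bounds -/
theorem redA [IsManifold (𝓡 (5 + k)) ∞ M] {α : ℝ} (h0 : 0 < α) (h1' : α ≤ 1)
    (F : DiffM (5 + k) M ⊤)
    (hφ : φ ∈ IsManifold.maximalAtlas (𝓡 (5 + k)) ∞ M) (hφt : φ.target = univ)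
    (Fh : Tot k ≃ₜ Tot k) (hFh : ContDiff ℝ ∞ Fh)
    (hF : ∀ u, F (jm φ L u) = jm φ L (Fh u)) (W₀ : Set (Tot k)) (C C' : ℝ) (hC : 0 < C)
    (hCC : (1 + ‖(L.symm : V (5 + k) →L[ℝ] Tot k)‖) *
      (C * (1 + ‖(L : Tot k →L[ℝ] V (5 + k))‖) ^ 2) ≤ C')
    (hW₀ : ∀ g : Tot k → Tot k, Function.Injective g → ContDiff ℝ 1 g → (∀ y ∉ W₀, g y = Fh y) →
      (∀ y y', ‖fderiv ℝ (fun z => g z - Fh z) y - fderiv ℝ (fun z => g z - Fh z) y'‖ ≤
        C' * pw α ‖y - y'‖) → ∀ y ∈ W₀, ∀ n : ℕ, 1 ≤ n → g^[n] y ≠ y)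
    (G : DiffM (5 + k) M 1) (hG : ∀ y ∉ jm φ L '' W₀, G y = F y)
    (hH : ∀ v v' : V (5 + k), ‖fderiv ℝ (dif φ F G) v - fderiv ℝ (dif φ F G) v'‖ ≤
      C * ‖v - v'‖ ^ α) :
    ∀ y ∈ jm φ L '' W₀, ¬ IsPer G y :=
  red F hφ hφt Fh hF W₀ C' hW₀ G hG fun _ _ =>
    (holL h0 h1' (dif_C1 F hφ hφt Fh hFh hF W₀ G hG) hC (hH _ _)).trans
      (mul_le_mul_of_nonneg_right hCC (pw_nonneg (norm_nonneg _)))

/-- the case of the strong `C²` neighbourhoods -/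
theorem redR [IsManifold (𝓡 (5 + k)) ∞ M] {α : ℝ} (h0 : 0 < α) (h1' : α ≤ 1)
    (F : DiffM (5 + k) M ⊤)
    (hφ : φ ∈ IsManifold.maximalAtlas (𝓡 (5 + k)) ∞ M) (hφt : φ.target = univ)
    (Fh : Tot k ≃ₜ Tot k)
    (hF : ∀ u, F (jm φ L u) = jm φ L (Fh u)) (R : ℝ) (hR : 0 < R) (W₀ : Set (Tot k))
    (hWR : W₀ ⊆ Metric.ball 0 R) (C C' : ℝ) (hC : 0 < C)
    (hCC : (1 + ‖(L.symm : V (5 + k) →L[ℝ] Tot k)‖) *
      ((C * (1 + (1 + ‖(L : Tot k →L[ℝ] V (5 + k))‖) * (2 * R))) *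
        (1 + ‖(L : Tot k →L[ℝ] V (5 + k))‖) ^ 2) ≤ C' / 2)
    (hW₀ : ∀ g : Tot k → Tot k, Function.Injective g → ContDiff ℝ 1 g → (∀ y ∉ W₀, g y = Fh y) →
      (∀ y y', ‖fderiv ℝ (fun z => g z - Fh z) y - fderiv ℝ (fun z => g z - Fh z) y'‖ ≤
        C' * pw α ‖y - y'‖) → ∀ y ∈ W₀, ∀ n : ℕ, 1 ≤ n → g^[n] y ≠ y)
    (K : Set M) (hK : IsCompact K) (hKφ : K ⊆ φ.source)
    (hKd : K = jm φ L '' Metric.closedBall 0 R) (r : ℕ∞) (hr : 2 ≤ r) (Fr : DiffM (5 + k) M r)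
    (hFr : ∀ y, Fr y = F y) (G : DiffM (5 + k) M r) (hG : ∀ y ∉ jm φ L '' W₀, G y = F y)
    (hGN : G ∈ strongNbhd (oneChart φ hφ K hK hKφ C hC) 2 Fr) :
    ∀ y ∈ jm φ L '' W₀, ¬ IsPer G y := by
  have h1r : ((1 : ℕ∞) : WithTop ℕ∞) ≤ ((r : ℕ∞) : WithTop ℕ∞) :=
    WithTop.coe_le_coe.mpr (le_trans (by norm_num) hr)
  set G' : DiffM (5 + k) M 1 := ⟨G.toEquiv, G.contMDiff.of_le h1r, G.symm.contMDiff.of_le h1r⟩
    with hG'
  have hGG : ∀ y, G' y = G y := fun y => rfl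
  have hgG : ContDiff ℝ 2 (φ ∘ G ∘ φ.symm) :=
    comp_contDiff2 hφ hφt hφ hr G (pres' hφt F Fh hF W₀ G hG)
  have hFrs : ∀ v, Fr (φ.symm v) ∈ φ.source := by
    intro v
    rw [hFr]
    have h2 : F (φ.symm v) = jm φ L (Fh (L.symm v)) := by
      rw [← hF]
      unfold jm
      rw [L.apply_symm_apply]
    rw [h2]
    exact jm_source hφt _
  have hgF : ContDiff ℝ 2 (φ ∘ Fr ∘ φ.symm) := comp_contDiff2 hφ hφt hφ hr Fr hFrs
  have hdif : dif φ F G = fun v => (φ ∘ G ∘ φ.symm) v - (φ ∘ Fr ∘ φ.symm) v := by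
    funext v
    show _ = φ (G (φ.symm v)) - φ (Fr (φ.symm v))
    rw [hFr]
    rfl
  have hd2 : ContDiff ℝ 2 (dif φ F G) := by
    rw [hdif]
    exact hgG.sub hgF
  have hdb : ∀ u ∈ Metric.closedBall (0 : Tot k) R, ∀ m : ℕ, m ≤ 2 →
      ‖iteratedFDeriv ℝ m (dif φ F G) (L u)‖ < C := by
    intro u hu m hm
    have h1 := (hGN () (jm φ L u) (by
      show jm φ L u ∈ K
      rw [hKd]
      exact ⟨u, hu, rfl⟩)).2 m hm
    have h2 : ‖iteratedFDeriv ℝ m (φ ∘ G ∘ φ.symm) (φ (jm φ L u)) -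
        iteratedFDeriv ℝ m (φ ∘ Fr ∘ φ.symm) (φ (jm φ L u))‖ < C := h1
    rw [c_jm hφt] at h2
    have hm' : (m : WithTop ℕ∞) ≤ 2 := by exact_mod_cast hm
    have h3 : iteratedFDeriv ℝ m (dif φ F G) (L u) =
        iteratedFDeriv ℝ m (φ ∘ G ∘ φ.symm) (L u) -
        iteratedFDeriv ℝ m (φ ∘ Fr ∘ φ.symm) (L u) := by
      rw [hdif]
      exact iteratedFDeriv_sub_apply (((hgG).of_le hm').contDiffAt) ((hgF.of_le hm').contDiffAt)
    rw [h3]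
    exact h2
  -- the difference in linear coordinates
  set C₁ : ℝ := C * (1 + (1 + ‖(L : Tot k →L[ℝ] V (5 + k))‖) * (2 * R)) with hC₁
  have hLn := norm_nonneg (L : Tot k →L[ℝ] V (5 + k))
  have hLn' := norm_nonneg (L.symm : V (5 + k) →L[ℝ] Tot k)
  have hd1 : (1 : ℝ) ≤ 1 + (1 + ‖(L : Tot k →L[ℝ] V (5 + k))‖) * (2 * R) := by
    have : 0 ≤ (1 + ‖(L : Tot k →L[ℝ] V (5 + k))‖) * (2 * R) := by positivity
    linarith
  have hCC₁ : C ≤ C₁ := by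
    rw [hC₁]
    exact le_mul_of_one_le_right hC.le hd1
  have hC₁0 : 0 < C₁ := hC.trans_le hCC₁
  have hdd : ContDiff ℝ 1 (dif φ F G) := hd2.of_le (by norm_num)
  have hdz : ∀ u, R ≤ ‖u‖ → dif φ F G (L u) = 0 := by
    intro u hu
    have h1 : dif φ F G (L u) = φ (G (jm φ L u)) - φ (F (jm φ L u)) := rfl
    rw [h1, hG, sub_self]
    rintro ⟨w, hw, hwu⟩
    have h2 := hWR hw
    rw [jm_inj hφt hwu, mem_ball_zero_iff] at h2
    linarith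
  have hhol : ∀ u, ‖u‖ ≤ R → ∀ u', ‖u'‖ ≤ R →
      ‖fderiv ℝ (dif φ F G) (L u) - fderiv ℝ (dif φ F G) (L u')‖ ≤ C₁ * ‖L u - L u'‖ ^ α := by
    intro u hu u' hu'
    set S : Set (V (5 + k)) := (L : Tot k →ₗ[ℝ] V (5 + k)) '' Metric.closedBall 0 R with hS
    have hconv : Convex ℝ S := (convex_closedBall 0 R).linear_image _
    have hfd : ContDiff ℝ 1 (fderiv ℝ (dif φ F G)) := hd2.fderiv_right (by norm_num)
    have hbd : ∀ v ∈ S, ‖fderiv ℝ (fderiv ℝ (dif φ F G)) v‖ ≤ C := by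
      rintro _ ⟨w, hw, rfl⟩
      have h8 := hdb w hw 2 le_rfl
      have h9 : ‖iteratedFDeriv ℝ 2 (dif φ F G) (L w)‖ =
          ‖fderiv ℝ (fderiv ℝ (dif φ F G)) (L w)‖ := by
        rw [← norm_iteratedFDeriv_one, norm_iteratedFDeriv_fderiv]
      rw [h9] at h8
      exact h8.le
    have hmv := hconv.norm_image_sub_le_of_norm_fderiv_le (𝕜 := ℝ) (f := fderiv ℝ (dif φ F G))
      (fun v _ => hfd.differentiable one_ne_zero v) hbd (x := L u') (y := L u)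
      ⟨u', by simpa using hu', rfl⟩ ⟨u, by simpa using hu, rfl⟩
    refine hmv.trans ?_
    set d : ℝ := 1 + (1 + ‖(L : Tot k →L[ℝ] V (5 + k))‖) * (2 * R) with hd
    have hdp : 0 < d := by linarith
    have hdist : ‖L u - L u'‖ ≤ d := by
      have h4 : ‖L u - L u'‖ ≤ (1 + ‖(L : Tot k →L[ℝ] V (5 + k))‖) * ‖u - u'‖ := by
        rw [← map_sub]
        refine ((L : Tot k →L[ℝ] V (5 + k)).le_opNorm _).trans ?_
        gcongr
        linarith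
      have h5 : ‖u - u'‖ ≤ 2 * R := (norm_sub_le _ _).trans (by linarith)
      have h6 : (1 + ‖(L : Tot k →L[ℝ] V (5 + k))‖) * ‖u - u'‖ ≤
          (1 + ‖(L : Tot k →L[ℝ] V (5 + k))‖) * (2 * R) := by gcongr
      linarith
    have h7 : ‖L u - L u'‖ ≤ d * ‖L u - L u'‖ ^ α := by
      have h8 : ‖L u - L u'‖ / d ≤ pw α (‖L u - L u'‖ / d) :=
        Pool.Agent.Y640.CLA.le_pw h0 h1' (by positivity) ((div_le_one hdp).2 hdist)
      have h9 : pw α (‖L u - L u'‖ / d) ≤ pw α ‖L u - L u'‖ :=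
        pw_mono h0 (by positivity) (div_le_self (norm_nonneg _) hd1)
      have h10 := h8.trans h9
      rw [div_le_iff₀ hdp] at h10
      unfold pw at h10
      linarith
    calc C * ‖L u - L u'‖ ≤ C * (d * ‖L u - L u'‖ ^ α) := by gcongr
      _ = C₁ * ‖L u - L u'‖ ^ α := by rw [hC₁]; ring
  -- apply the extension lemma to `e = L⁻¹ ∘ dif ∘ L`
  have hbound : ∀ b : ℝ, 0 ≤ b → b ≤ C →
      (1 + ‖(L.symm : V (5 + k) →L[ℝ] Tot k)‖) *
        (b * (1 + ‖(L : Tot k →L[ℝ] V (5 + k))‖)) ≤ C' / 2 := by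
    intro b hb hbC
    refine le_trans ?_ hCC
    have h2 : b ≤ C₁ := hbC.trans hCC₁
    have h3 : (1 + ‖(L : Tot k →L[ℝ] V (5 + k))‖) ≤ (1 + ‖(L : Tot k →L[ℝ] V (5 + k))‖) ^ 2 := by
      nlinarith
    gcongr
  have hC'0 : 0 < C' / 2 := by
    refine lt_of_lt_of_le ?_ hCC
    positivity
  have heC : ContDiff ℝ 1 (fun u : Tot k => L.symm (dif φ F G (L u))) :=
    L.symm.contDiff.comp (hdd.comp L.contDiff)
  have hS : SmA α (fun _ => C' / 2) (fun u : Tot k => L.symm (dif φ F G (L u))) := by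
    apply smA_of_ball (x := 0) h0 hC'0 hR heC
    · intro u hu
      rw [sub_zero] at hu
      rw [hdz u hu, map_zero]
    · intro u hu
      rw [sub_zero] at hu
      have hu' : u ∈ Metric.closedBall (0 : Tot k) R := by simpa using hu
      constructor
      · have h3 := hdb u hu' 0 (by norm_num)
        rw [norm_iteratedFDeriv_zero] at h3
        refine ((L.symm : V (5 + k) →L[ℝ] Tot k).le_opNorm _).trans
          (le_trans ?_ (hbound C hC.le le_rfl))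
        gcongr
        · linarith
        · nlinarith
      · have h3 := hdb u hu' 1 (by norm_num)
        rw [norm_iteratedFDeriv_one] at h3
        rw [dif_fd hdd]
        exact (norm_conj L _).trans (hbound _ (norm_nonneg _) h3.le)
    · intro u hu u' hu'
      rw [sub_zero] at hu hu'
      exact (holL h0 h1' hdd hC₁0 (hhol u hu u' hu')).trans
        (mul_le_mul_of_nonneg_right hCC (pw_nonneg (norm_nonneg _)))
  refine red F hφ hφt Fh hF W₀ C' hW₀ G' hG ?_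
  intro u u'
  rcases le_total ‖u - u'‖ 1 with h | h
  · refine (hS.b2 u u' h).trans (mul_le_mul_of_nonneg_right ?_ (pw_nonneg (norm_nonneg _)))
    linarith
  · have h2 : (1 : ℝ) ≤ pw α ‖u - u'‖ := Real.one_le_rpow h h0.le
    refine (norm_sub_le _ _).trans ?_
    have h3 := hS.b1 u
    have h4 := hS.b1 u'
    have h5 : C' ≤ C' * pw α ‖u - u'‖ := le_mul_of_one_le_right (by linarith) h2
    refine le_trans ?_ h5
    exact (add_le_add h3 h4).trans (by linarith)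

end mani

theorem mu (hest : S_EST) (hcore : S_CORE) {α : ℝ} (h0 : 0 < α) (h1' : α ≤ 1)
    (hcm : S_COMPA (α / 2)) (hcb : S_COMB) (k : ℕ) (Fh : Tot k ≃ₜ Tot k) (Ft : Tot k → Tot k)
    (ρ δ : ℝ) (hFh : ContDiff ℝ ∞ Fh) (hFh' : ContDiff ℝ ∞ Fh.symm)
    (hRR : ∃ R : ℝ, ∀ u, R ≤ ‖u‖ → Fh u = u)
    (hcomm : ∀ u, Fh (iota k u) = iota k (Ft u)) (hbij : Function.Bijective Ft) (hρ : 0 < ρ)
    (hδ : 0 < δ)
    (hrec : ∀ ε : ℝ, 0 < ε → ∃ n : ℕ, 1 ≤ n ∧ ‖Ft^[n] (x₀ k) - x₀ k‖ < ε)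
    (hcl : ∀ e : Tot k → Tot k, SmA (α / 2) (fun _ => δ) e → (∀ u, ρ ≤ ‖u - x₀ k‖ → e u = 0) →
      ∀ u, ‖u - x₀ k‖ < ρ → ∀ n : ℕ, 1 ≤ n → (fun v => Ft (v + e v))^[n] u ≠ u)
    (M : Type) [TopologicalSpace M] [T2Space M] [ChartedSpace (V (5 + k)) M]
    [IsManifold (𝓡 (5 + k)) ∞ M] (p : M) (B : Set M) (hB : B ∈ 𝓝 p) :
    ∃ (F : DiffM (5 + k) M ⊤) (x : M) (φ : OpenPartialHomeomorph M (V (5 + k)))
      (hφ : φ ∈ IsManifold.maximalAtlas (𝓡 (5 + k)) ∞ M) (K : Set M) (hK : IsCompact K)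
      (hKφ : K ⊆ φ.source),
      φ.target = univ ∧ φ.source ⊆ B ∧ (∀ y ∉ K, F y = y) ∧ IsRec F.toHomeomorph x ∧
      ∀ (C : ℝ) (hC : 0 < C) (l : ℕ), ∃ W : Set M, IsOpen W ∧ W ⊆ K ∧
        (∀ j : ℤ, |j| ≤ l → (F.toHomeomorph ^ j) x ∈ W) ∧
        (∀ G : DiffM (5 + k) M 1,
          (∀ v v' : V (5 + k), ‖fderiv ℝ (dif φ F G) v - fderiv ℝ (dif φ F G) v'‖ ≤
            C * ‖v - v'‖ ^ α) → (∀ y ∉ W, G y = F y) → ∀ y ∈ W, ¬ IsPer G y) ∧
        ∀ (r : ℕ∞) (Fr : DiffM (5 + k) M r), 2 ≤ r → (∀ y, Fr y = F y) →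
          IsOpen[strongTop (5 + k) M r] (strongNbhd (oneChart φ hφ K hK hKφ C hC) 2 Fr) ∧
          Fr ∈ strongNbhd (oneChart φ hφ K hK hKφ C hC) 2 Fr ∧
          ∀ G ∈ strongNbhd (oneChart φ hφ K hK hKφ C hC) 2 Fr,
            (∀ y ∉ W, G y = F y) → ∀ y ∈ W, ¬ IsPer G y := by
  obtain ⟨R₀, hR₀⟩ := hRR
  obtain ⟨R, hR, hRR⟩ : ∃ R : ℝ, 0 < R ∧ ∀ u, R ≤ ‖u‖ → Fh u = u :=
    ⟨max R₀ 1, by positivity, fun u hu => hR₀ u ((le_max_left _ _).trans hu)⟩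
  obtain ⟨F, φ, c, L, hφ, hφt, hφB, hct, hcφ, hFK, hF⟩ := setupU k Fh hFh hFh' R hRR M p B hB
  set P : Equiv.Perm (Tot k) := Equiv.ofBijective Ft hbij with hP
  have hPFt : ∀ u, P u = Ft u := fun u => rfl
  have hjF : ∀ u, F (jm c L u) = jm c L (P u) := by
    intro u
    rw [hcφ, hcφ, hF, hcomm, hPFt]
  have hH := HH_jm F P hjF
  have hK : IsCompact (jm φ L '' Metric.closedBall 0 R) :=
    (isCompact_closedBall _ _).image (jm_cont hφt)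
  have hKφ : jm φ L '' Metric.closedBall 0 R ⊆ φ.source := by
    rintro _ ⟨u, _, rfl⟩
    exact jm_source hφt u
  refine ⟨F, jm c L (x₀ k), φ, hφ, jm φ L '' Metric.closedBall 0 R, hK, hKφ, hφt, hφB, hFK,
    ?_, ?_⟩
  · intro hemb
    obtain ⟨W, hW, hW'⟩ := hemb.isInducing.isOpen_iff.mp (isOpen_discrete ({0} : Set ℤ))
    have h0 : jm c L (x₀ k) ∈ W := by
      have : (0 : ℤ) ∈ (fun m : ℤ => (F.toHomeomorph ^ m) (jm c L (x₀ k))) ⁻¹' W := by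
        rw [hW']; rfl
      simpa using this
    have h1 : ∀ᶠ v in 𝓝 (x₀ k), jm c L v ∈ W :=
      (jm_cont hct).continuousAt.eventually (hW.mem_nhds h0)
    obtain ⟨ε, hε, h2⟩ := Metric.eventually_nhds_iff.1 h1
    obtain ⟨n, hn1, hn2⟩ := hrec ε hε
    have h3 : jm c L (Ft^[n] (x₀ k)) ∈ W := h2 (by rw [dist_eq_norm]; exact hn2)
    have h4 : (n : ℤ) ∈ (fun m : ℤ => (F.toHomeomorph ^ m) (jm c L (x₀ k))) ⁻¹' W := by
      show HH F (n : ℤ) (jm c L (x₀ k)) ∈ W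
      rw [hH, perm_nat]
      exact h3
    rw [hW'] at h4
    have : (n : ℤ) = 0 := h4
    omega
  intro C hC l
  obtain ⟨C', hC', hC1, hC2⟩ : ∃ C' : ℝ, 0 < C' ∧
      (1 + ‖(L.symm : V (5 + k) →L[ℝ] Tot k)‖) *
        (C * (1 + ‖(L : Tot k →L[ℝ] V (5 + k))‖) ^ 2) ≤ C' ∧
      (1 + ‖(L.symm : V (5 + k) →L[ℝ] Tot k)‖) *
        ((C * (1 + (1 + ‖(L : Tot k →L[ℝ] V (5 + k))‖) * (2 * R))) *
          (1 + ‖(L : Tot k →L[ℝ] V (5 + k))‖) ^ 2) ≤ C' / 2 := by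
    refine ⟨2 * ((1 + ‖(L.symm : V (5 + k) →L[ℝ] Tot k)‖) *
        ((C * (1 + (1 + ‖(L : Tot k →L[ℝ] V (5 + k))‖) * (2 * R))) *
          (1 + ‖(L : Tot k →L[ℝ] V (5 + k))‖) ^ 2)), by positivity, ?_, by linarith⟩
    have h2 : (1 + ‖(L.symm : V (5 + k) →L[ℝ] Tot k)‖) *
        (C * (1 + ‖(L : Tot k →L[ℝ] V (5 + k))‖) ^ 2) ≤
        (1 + ‖(L.symm : V (5 + k) →L[ℝ] Tot k)‖) *
        ((C * (1 + (1 + ‖(L : Tot k →L[ℝ] V (5 + k))‖) * (2 * R))) *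
          (1 + ‖(L : Tot k →L[ℝ] V (5 + k))‖) ^ 2) := by
      gcongr
      apply le_mul_of_one_le_right hC.le
      have : 0 ≤ (1 + ‖(L : Tot k →L[ℝ] V (5 + k))‖) * (2 * R) := by positivity
      linarith
    have h3 : 0 ≤ (1 + ‖(L.symm : V (5 + k) →L[ℝ] Tot k)‖) *
        ((C * (1 + (1 + ‖(L : Tot k →L[ℝ] V (5 + k))‖) * (2 * R))) *
          (1 + ‖(L : Tot k →L[ℝ] V (5 + k))‖) ^ 2) := by positivity
    linarith
  have : Nontrivial (Tot k) := ⟨⟨0, x₀ k, by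
    intro h
    have h2 := congrArg (fun u : Tot k => u.2.2.2) h
    simp [x₀] at h2⟩⟩
  obtain ⟨W₀, g1, g2, g3, g4, g5⟩ := ux hest hcore h0 h1' hcm hcb Fh hFh hFh' (iota k)
    (iota_source k) (iota_smooth k) (iota_symm_smooth k) P (fun u => hcomm u) R hRR (x₀ k) ρ δ
    hρ hδ (fun e he he0 u hu n hn => hcl e he he0 u hu n hn) C' hC' l
  refine ⟨jm φ L '' W₀, jm_open hφt _ g1, image_mono (g3.trans Metric.ball_subset_closedBall),
    ?_, ?_, ?_⟩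
  · intro j hj
    refine ⟨_, g4 j hj, ?_⟩
    rw [← hcφ]
    exact (hH j _).symm
  · intro G hG hGW
    exact redA h0 h1' F hφ hφt Fh hFh hF W₀ C C' hC hC1 g5 G hGW hG
  · intro r Fr hr hFr
    have hKs : ∀ x ∈ jm φ L '' Metric.closedBall 0 R, Fr x ∈ φ.source := by
      rintro _ ⟨u, _, rfl⟩
      rw [hFr, hF]
      exact jm_source hφt _
    refine ⟨TopologicalSpace.GenerateOpen.basic _ ⟨_, 2, Fr, by exact_mod_cast hr,
      fun _ x hx => hKs x hx, rfl⟩, ?_, ?_⟩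
    · intro i y hy
      refine ⟨hKs y hy, ?_⟩
      intro m _
      rw [sub_self, norm_zero]
      exact hC
    · intro G hG hGW
      exact redR h0 h1' F hφ hφt Fh hF R hR W₀ g3 C C' hC hC2 g5 _ hK hKφ rfl r hr Fr
        hFr G hGW hG

end Pool.Agent.H247.UC
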