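import Pool.Agent.H247.LC.Iface3

/-!
# Uniform version of the local non-closing theorem: interfaces
-/

set_option autoImplicit false

open scoped Manifold ContDiff Topology
open Set

namespace Pool.Agent.H247.UC

open Pool.Agent.H718R2.G (V DiffM StrongData strongNbhd strongTop IsRec IsPer)
open Pool.Agent.Y640.CLA (SmA pw)
open Pool.Agent.H247.LC (S_COMPA S_COMB)

/-- `C^{1+α}`-bounded perturbations with tiny support are `C^{1+α/2}`-small, after a change of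
coordinates (`B` in the source, `B'` in the target, `Ψ` the inverse of `B'`). -/
def S_EST : Prop := ∀ (X : Type) [NormedAddCommGroup X] [NormedSpace ℝ X] [FiniteDimensional ℝ X]
    (B B' Ψ : X → X) (R : Set X) (x : X) (α C ε : ℝ), 0 < α → α ≤ 1 → 0 < C → 0 < ε →
    Nontrivial X →
    IsOpen R → ContDiff ℝ ∞ B → ContDiff ℝ ∞ B' → ContDiffOn ℝ ∞ Ψ R → IsOpenMap B →
    (∀ u, B' u ∈ R) → (∀ u, Ψ (B' u) = u) →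
    ∃ r₀ : ℝ, 0 < r₀ ∧ ∀ ρ₁ : ℝ, 0 < ρ₁ → ρ₁ ≤ r₀ → ∀ h : X → X, ContDiff ℝ 1 h →
      (∀ y y', ‖fderiv ℝ h y - fderiv ℝ h y'‖ ≤ C * pw α ‖y - y'‖) →
      (∀ u, ρ₁ ≤ ‖u - x‖ → ‖u - x‖ < 2 * ρ₁ → h (B u) = 0) →
      (∀ u ∈ Metric.closedBall x ρ₁, B' u + h (B u) ∈ R ∧ ‖Ψ (B' u + h (B u)) - u‖ ≤ ρ₁ / 2 ∧
        ‖Ψ (B' u + h (B u)) - u‖ ≤ ε ∧
        ‖fderiv ℝ (fun u => Ψ (B' u + h (B u)) - u) u‖ ≤ ε) ∧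
      ∀ u ∈ Metric.closedBall x ρ₁, ∀ u' ∈ Metric.closedBall x ρ₁,
        ‖fderiv ℝ (fun u => Ψ (B' u + h (B u)) - u) u -
          fderiv ℝ (fun u => Ψ (B' u + h (B u)) - u) u'‖ ≤ ε * pw (α / 2) ‖u - u'‖

/-- Variant of `Pool.Agent.H247.LC.Man2A.coreA` in which the smallness `δ₂` does not depend on the
radius `ρ₁` of the support. -/
def S_CORE : Prop := ∀ (α : ℝ), 0 < α → S_COMPA α → S_COMB → ∀ (X : Type)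
    [NormedAddCommGroup X] [NormedSpace ℝ X]
    (P : Equiv.Perm X) (x : X) (ρ δ : ℝ), 0 < ρ → 0 < δ →
    (∀ e : X → X, SmA α (fun _ => δ) e → (∀ u, ρ ≤ ‖u - x‖ → e u = 0) →
      ∀ u, ‖u - x‖ < ρ → ∀ n : ℕ, 1 ≤ n → (fun v => P (v + e v))^[n] u ≠ u) →
    ∀ (l : ℕ), ∃ δ₂ : ℝ, 0 < δ₂ ∧ ∀ ρ₁ : ℝ, 0 < ρ₁ → ρ₁ ≤ ρ →
    (∀ i, 1 ≤ i → i ≤ 2 * l → ∀ u ∈ Metric.ball x (2 * ρ₁),
      (P : X → X)^[i] u ∉ Metric.ball x (2 * ρ₁)) →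
    ∀ Gt : X → X, Function.Injective Gt →
      (∀ y, (∀ a : ℤ, |a| ≤ l → ∀ u ∈ Metric.ball x ρ₁, y ≠ (P ^ a) u) → Gt y = P y) →
      (∀ a : ℤ, |a| ≤ l → ContDiff ℝ 1 (fun u => (P ^ (-(a + 1))) (Gt ((P ^ a) u)))) →
      (∀ a : ℤ, |a| ≤ l → ∀ u ∈ Metric.closedBall x ρ₁,
        ‖(P ^ (-(a + 1))) (Gt ((P ^ a) u)) - u‖ ≤ ρ₁ / 2 ∧
        ‖(P ^ (-(a + 1))) (Gt ((P ^ a) u)) - u‖ ≤ δ₂ ∧
        ‖fderiv ℝ (fun u => (P ^ (-(a + 1))) (Gt ((P ^ a) u)) - u) u‖ ≤ δ₂) →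
      (∀ a : ℤ, |a| ≤ l → ∀ u ∈ Metric.closedBall x ρ₁, ∀ u' ∈ Metric.closedBall x ρ₁,
        ‖fderiv ℝ (fun u => (P ^ (-(a + 1))) (Gt ((P ^ a) u)) - u) u -
          fderiv ℝ (fun u => (P ^ (-(a + 1))) (Gt ((P ^ a) u)) - u) u'‖ ≤
            δ₂ * pw α ‖u - u'‖) →
      ∀ a : ℤ, |a| ≤ l → ∀ u ∈ Metric.ball x ρ₁, ∀ n : ℕ, 1 ≤ n →
        Gt^[n] ((P ^ a) u) ≠ (P ^ a) u

end Pool.Agent.H247.UC
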