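import Pool.Agent.H247.UC.Stm
import Pool.Agent.H247.LC.Man2A

/-!
# Uniform version: assembly in `ℝⁿ`
-/

set_option autoImplicit false
set_option linter.unusedSectionVars false

open scoped Manifold ContDiff Topology
open Set

namespace Pool.Agent.H247.UC

open Pool.Agent.Y640.CLA (SmA pw pw_nonneg)
open Pool.Agent.H247.LC (S_COMPA S_COMB)
open Pool.Agent.H247.LC.Man2 (exists_rho perm_dis perm_add perm_succ perm_neg perm_neg' perm_nat)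

section hom

variable {X : Type} [TopologicalSpace X]

theorem hz_zero (Fh : X ≃ₜ X) (u : X) : (Fh ^ (0 : ℤ) : X ≃ₜ X) u = u := by
  rw [zpow_zero]; rfl

theorem hz_add (Fh : X ≃ₜ X) (a b : ℤ) (u : X) :
    (Fh ^ (a + b) : X ≃ₜ X) u = (Fh ^ a : X ≃ₜ X) ((Fh ^ b : X ≃ₜ X) u) := by
  rw [zpow_add, Homeomorph.mul_apply]

theorem hz_one (Fh : X ≃ₜ X) (u : X) : (Fh ^ (1 : ℤ) : X ≃ₜ X) u = Fh u := by
  rw [zpow_one]

theorem hz_succ (Fh : X ≃ₜ X) (a : ℤ) (u : X) :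
    (Fh ^ (a + 1) : X ≃ₜ X) u = Fh ((Fh ^ a : X ≃ₜ X) u) := by
  rw [add_comm, hz_add, hz_one]

theorem hz_neg (Fh : X ≃ₜ X) (a : ℤ) (u : X) :
    (Fh ^ (-a) : X ≃ₜ X) ((Fh ^ a : X ≃ₜ X) u) = u := by
  rw [← hz_add, neg_add_cancel, hz_zero]

theorem hz_neg' (Fh : X ≃ₜ X) (a : ℤ) (u : X) :
    (Fh ^ a : X ≃ₜ X) ((Fh ^ (-a) : X ≃ₜ X) u) = u := by
  rw [← hz_add, add_neg_cancel, hz_zero]

end hom

theorem hz_smooth {X : Type} [NormedAddCommGroup X] [NormedSpace ℝ X] {Fh : X ≃ₜ X}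
    (h1 : ContDiff ℝ ∞ Fh) (h2 : ContDiff ℝ ∞ Fh.symm) (a : ℤ) :
    ContDiff ℝ ∞ (Fh ^ a : X ≃ₜ X) := by
  have key : ∀ f : X ≃ₜ X, ContDiff ℝ ∞ f → ∀ i : ℕ, ContDiff ℝ ∞ (f ^ i : X ≃ₜ X) := by
    intro f hf i
    induction i with
    | zero => exact contDiff_id
    | succ i ih =>
      have h3 : ((f ^ (i + 1) : X ≃ₜ X) : X → X) = (f ^ i : X ≃ₜ X) ∘ f := by
        funext x
        rw [pow_succ, Homeomorph.mul_apply]
        rfl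
      rw [h3]
      exact ih.comp hf
  cases a with
  | ofNat i =>
    rw [Int.ofNat_eq_natCast, zpow_natCast]
    exact key Fh h1 i
  | negSucc i =>
    rw [zpow_negSucc, ← inv_pow]
    exact key Fh⁻¹ h2 (i + 1)

/-- Uniform non-closing in `ℝⁿ`. -/
theorem ux (hest : S_EST) (hcore : S_CORE) {α : ℝ} (h0 : 0 < α) (h1 : α ≤ 1)
    (hcm : S_COMPA (α / 2)) (hcb : S_COMB) {X : Type} [NormedAddCommGroup X] [NormedSpace ℝ X]
    [FiniteDimensional ℝ X] [Nontrivial X] (Fh : X ≃ₜ X) (hF : ContDiff ℝ ∞ Fh)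
    (hF' : ContDiff ℝ ∞ Fh.symm) (A : OpenPartialHomeomorph X X) (hAs : A.source = univ)
    (hA : ContDiff ℝ ∞ A) (hA' : ContDiffOn ℝ ∞ A.symm A.target) (P : Equiv.Perm X)
    (hAP : ∀ u, Fh (A u) = A (P u)) (R₀ : ℝ) (hR : ∀ u, R₀ ≤ ‖u‖ → Fh u = u) (x : X)
    (ρ δ : ℝ) (hρ : 0 < ρ) (hδ : 0 < δ)
    (hcl : ∀ e : X → X, SmA (α / 2) (fun _ => δ) e → (∀ u, ρ ≤ ‖u - x‖ → e u = 0) →
      ∀ u, ‖u - x‖ < ρ → ∀ n : ℕ, 1 ≤ n → (fun v => P (v + e v))^[n] u ≠ u)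
    (C : ℝ) (hC : 0 < C) (l : ℕ) :
    ∃ W : Set X, IsOpen W ∧ W ⊆ A.target ∧ W ⊆ Metric.ball 0 R₀ ∧
      (∀ a : ℤ, |a| ≤ l → A ((P ^ a) x) ∈ W) ∧
      ∀ g : X → X, Function.Injective g → ContDiff ℝ 1 g → (∀ y ∉ W, g y = Fh y) →
        (∀ y y', ‖fderiv ℝ (fun z => g z - Fh z) y - fderiv ℝ (fun z => g z - Fh z) y'‖ ≤
          C * pw α ‖y - y'‖) →
        ∀ y ∈ W, ∀ n : ℕ, 1 ≤ n → g^[n] y ≠ y := by
  classical
  have hsrc : ∀ u, u ∈ A.source := fun u => by rw [hAs]; trivial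
  have hAinj : Function.Injective A := by
    intro u v huv
    have h2 := congrArg A.symm huv
    rwa [A.left_inv (hsrc u), A.left_inv (hsrc v)] at h2
  have hAo : IsOpenMap A := (A.to_isOpenEmbedding hAs).isOpenMap
  have hAt : ∀ u, A u ∈ A.target := fun u => A.map_source (hsrc u)
  have hAz : ∀ (a : ℤ) u, (Fh ^ a : X ≃ₜ X) (A u) = A ((P ^ a) u) := by
    have hnat : ∀ (i : ℕ) u, (Fh ^ (i : ℤ) : X ≃ₜ X) (A u) = A ((P ^ (i : ℤ)) u) := by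
      intro i
      induction i with
      | zero =>
        intro u
        rw [Nat.cast_zero, hz_zero, zpow_zero]
        rfl
      | succ i ih =>
        intro u
        rw [Nat.cast_succ, hz_succ, ih, hAP, perm_succ]
    intro a u
    cases a with
    | ofNat i => exact hnat i u
    | negSucc i =>
      have h2 : Int.negSucc i = -((i + 1 : ℕ) : ℤ) := Int.negSucc_eq i
      rw [h2]
      have h3 := hnat (i + 1) ((P ^ (-((i + 1 : ℕ) : ℤ))) u)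
      rw [perm_neg'] at h3
      rw [← h3, hz_neg]
  have hPc : Continuous P := by
    have h2 : (P : X → X) = fun u => A.symm (Fh (A u)) := by
      funext u
      rw [hAP, A.left_inv (hsrc _)]
    rw [h2, continuous_iff_continuousAt]
    intro u
    have h3 : Fh (A u) ∈ A.target := by rw [hAP]; exact hAt _
    exact ContinuousAt.comp (g := A.symm) (f := fun u => Fh (A u)) (A.continuousAt_symm h3)
      (Fh.continuous.comp hA.continuous).continuousAt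
  have hnp : ∀ i, 1 ≤ i → (P : X → X)^[i] x ≠ x := by
    intro i hi
    have h2 := hcl (fun _ => 0) ⟨differentiable_const 0, fun z => by simpa using hδ.le,
      fun z => by simpa using hδ.le, fun z z' _ => by
        simpa using mul_nonneg hδ.le (pw_nonneg (α := α / 2) (norm_nonneg (z - z')))⟩
      (fun _ _ => rfl) x (by rw [sub_self, norm_zero]; exact hρ) i hi
    simpa using h2
  obtain ⟨δ₂, hδ₂, hco⟩ := hcore (α / 2) (by positivity) hcm hcb X P x ρ δ hρ hδ hcl l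
  -- the estimates
  have hE : ∀ a : ℤ, ∃ r₀ : ℝ, 0 < r₀ ∧ ∀ ρ₁ : ℝ, 0 < ρ₁ → ρ₁ ≤ r₀ → ∀ h : X → X,
      ContDiff ℝ 1 h →
      (∀ y y', ‖fderiv ℝ h y - fderiv ℝ h y'‖ ≤ C * pw α ‖y - y'‖) →
      (∀ u, ρ₁ ≤ ‖u - x‖ → ‖u - x‖ < 2 * ρ₁ → h ((Fh ^ a : X ≃ₜ X) (A u)) = 0) →
      (∀ u ∈ Metric.closedBall x ρ₁,
        (Fh ^ (a + 1) : X ≃ₜ X) (A u) + h ((Fh ^ a : X ≃ₜ X) (A u)) ∈
          (Fh ^ (-(a + 1)) : X ≃ₜ X) ⁻¹' A.target ∧
        ‖A.symm ((Fh ^ (-(a + 1)) : X ≃ₜ X) ((Fh ^ (a + 1) : X ≃ₜ X) (A u) +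
          h ((Fh ^ a : X ≃ₜ X) (A u)))) - u‖ ≤ ρ₁ / 2 ∧
        ‖A.symm ((Fh ^ (-(a + 1)) : X ≃ₜ X) ((Fh ^ (a + 1) : X ≃ₜ X) (A u) +
          h ((Fh ^ a : X ≃ₜ X) (A u)))) - u‖ ≤ δ₂ ∧
        ‖fderiv ℝ (fun u => A.symm ((Fh ^ (-(a + 1)) : X ≃ₜ X) ((Fh ^ (a + 1) : X ≃ₜ X) (A u) +
          h ((Fh ^ a : X ≃ₜ X) (A u)))) - u) u‖ ≤ δ₂) ∧
      ∀ u ∈ Metric.closedBall x ρ₁, ∀ u' ∈ Metric.closedBall x ρ₁,
        ‖fderiv ℝ (fun u => A.symm ((Fh ^ (-(a + 1)) : X ≃ₜ X) ((Fh ^ (a + 1) : X ≃ₜ X) (A u) +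
          h ((Fh ^ a : X ≃ₜ X) (A u)))) - u) u -
          fderiv ℝ (fun u => A.symm ((Fh ^ (-(a + 1)) : X ≃ₜ X) ((Fh ^ (a + 1) : X ≃ₜ X) (A u) +
          h ((Fh ^ a : X ≃ₜ X) (A u)))) - u) u'‖ ≤ δ₂ * pw (α / 2) ‖u - u'‖ := by
    intro a
    obtain ⟨r₀, hr₀, hr⟩ := hest X (fun u => (Fh ^ a : X ≃ₜ X) (A u))
      (fun u => (Fh ^ (a + 1) : X ≃ₜ X) (A u))
      (fun y => A.symm ((Fh ^ (-(a + 1)) : X ≃ₜ X) y))
      ((Fh ^ (-(a + 1)) : X ≃ₜ X) ⁻¹' A.target) x α C δ₂ h0 h1 hC hδ₂ inferInstance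
      (A.open_target.preimage (Fh ^ (-(a + 1)) : X ≃ₜ X).continuous)
      ((hz_smooth hF hF' a).comp hA) ((hz_smooth hF hF' (a + 1)).comp hA)
      (hA'.comp (hz_smooth hF hF' (-(a + 1))).contDiffOn (fun y hy => hy))
      ((Fh ^ a : X ≃ₜ X).isOpenMap.comp hAo)
      (fun u => by
        show (Fh ^ (-(a + 1)) : X ≃ₜ X) ((Fh ^ (a + 1) : X ≃ₜ X) (A u)) ∈ A.target
        rw [hz_neg]
        exact hAt u)
      (fun u => by
        show A.symm ((Fh ^ (-(a + 1)) : X ≃ₜ X) ((Fh ^ (a + 1) : X ≃ₜ X) (A u))) = u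
        rw [hz_neg, A.left_inv (hsrc u)])
    exact ⟨r₀, hr₀, hr⟩
  choose r₀ hr₀ hEr using hE
  obtain ⟨ρ', hρ', hρ'r⟩ : ∃ ρ' : ℝ, 0 < ρ' ∧ ∀ a : ℤ, |a| ≤ l → ρ' ≤ r₀ a := by
    have hne : (Finset.Icc (-(l : ℤ)) l).Nonempty := ⟨0, by simp⟩
    refine ⟨(Finset.Icc (-(l : ℤ)) l).inf' hne r₀, ?_, ?_⟩
    · rw [Finset.lt_inf'_iff]
      intro a _
      exact hr₀ a
    · intro a ha
      apply Finset.inf'_le
      rw [Finset.mem_Icc]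
      exact abs_le.1 ha
  obtain ⟨ρ₁, hρ₁, hρ₁', hdis⟩ := exists_rho hPc x (2 * l + 1) (fun i h1 _ => hnp i h1)
    (ρ := min ρ ρ') (by positivity)
  have hρ₁ρ : ρ₁ ≤ ρ := hρ₁'.trans (min_le_left _ _)
  have hρ₁r : ∀ a : ℤ, |a| ≤ l → ρ₁ ≤ r₀ a := fun a ha =>
    (hρ₁'.trans (min_le_right _ _)).trans (hρ'r a ha)
  have hsub : Metric.ball x ρ₁ ⊆ Metric.ball x (2 * ρ₁) :=
    Metric.ball_subset_ball (by linarith)
  have hdis' : ∀ i, 1 ≤ i → i ≤ 2 * l → ∀ u ∈ Metric.ball x (2 * ρ₁),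
      (P : X → X)^[i] u ∉ Metric.ball x (2 * ρ₁) := fun i h1 h2 => hdis i h1 (by omega)
  obtain ⟨W, hWdef⟩ : ∃ W : Set X, W = ⋃ (a : ℤ) (_ : |a| ≤ l),
    (fun u => (Fh ^ a : X ≃ₜ X) (A u)) '' Metric.ball x ρ₁ := ⟨_, rfl⟩
  have hWmem : ∀ y, y ∈ W ↔ ∃ a : ℤ, |a| ≤ l ∧ ∃ u ∈ Metric.ball x ρ₁, y = A ((P ^ a) u) := by
    intro y
    rw [hWdef, mem_iUnion]
    constructor
    · rintro ⟨a, ha⟩
      rw [mem_iUnion] at ha
      obtain ⟨ha, u, hu, rfl⟩ := ha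
      exact ⟨a, ha, u, hu, hAz a u⟩
    · rintro ⟨a, ha, u, hu, rfl⟩
      refine ⟨a, ?_⟩
      rw [mem_iUnion]
      exact ⟨ha, u, hu, hAz a u⟩
  refine ⟨W, ?_, ?_, ?_, ?_, ?_⟩
  · rw [hWdef]
    exact isOpen_iUnion fun a => isOpen_iUnion fun _ =>
      ((Fh ^ a : X ≃ₜ X).isOpenMap.comp hAo) _ Metric.isOpen_ball
  · intro y hy
    obtain ⟨a, _, u, _, rfl⟩ := (hWmem y).1 hy
    exact hAt _
  · intro y hy
    obtain ⟨a, _, u, hu, rfl⟩ := (hWmem y).1 hy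
    rw [mem_ball_zero_iff]
    by_contra hcon
    have h2 := hR _ (not_lt.1 hcon)
    rw [hAP] at h2
    have h3 : (P ^ a) (P u) = (P ^ a) u := by
      have h4 := hAinj h2
      rw [← perm_succ] at h4
      rw [← h4, perm_add, zpow_one]
    have h4 : P u = u := (P ^ a).injective h3
    refine hdis 1 le_rfl (by omega) u (hsub hu) ?_
    rw [Function.iterate_one, h4]
    exact hsub hu
  · intro a ha
    rw [hWmem]
    exact ⟨a, ha, x, Metric.mem_ball_self hρ₁, rfl⟩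
  intro g hginj hgC hgW hgH y hy n hn hper
  -- the difference
  set h : X → X := fun z => g z - Fh z with hh
  have hhC : ContDiff ℝ 1 h := hgC.sub (hF.of_le (by exact_mod_cast le_top))
  have hh0 : ∀ a : ℤ, |a| ≤ l → ∀ u, ρ₁ ≤ ‖u - x‖ → ‖u - x‖ < 2 * ρ₁ →
      h ((Fh ^ a : X ≃ₜ X) (A u)) = 0 := by
    intro a ha u hu1 hu2
    have h2 : (Fh ^ a : X ≃ₜ X) (A u) ∉ W := by
      intro h3
      rw [hAz] at h3
      obtain ⟨a', ha', u', hu', h4⟩ := (hWmem _).1 h3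
      have h5 := perm_dis P _ l hdis' a a' ha ha' u u' (mem_ball_iff_norm.2 hu2) (hsub hu')
        (hAinj h4)
      rw [← h5.2, mem_ball_iff_norm] at hu'
      linarith
    show g _ - Fh _ = 0
    rw [hgW _ h2, sub_self]
  have hB : ∀ (a : ℤ) u, (Fh ^ (a + 1) : X ≃ₜ X) (A u) + h ((Fh ^ a : X ≃ₜ X) (A u)) =
      g ((Fh ^ a : X ≃ₜ X) (A u)) := by
    intro a u
    show (Fh ^ (a + 1) : X ≃ₜ X) (A u) + (g _ - Fh _) = _
    rw [hz_succ]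
    abel
  have hEa := fun (a : ℤ) (ha : |a| ≤ l) =>
    hEr a ρ₁ hρ₁ (hρ₁r a ha) h hhC hgH (hh0 a ha)
  simp only [hB] at hEa
  have hga : ∀ u, g (A u) ∈ A.target := by
    intro u
    by_cases hu : A u ∈ W
    · obtain ⟨a, ha, v, hv, hav⟩ := (hWmem _).1 hu
      have h2 := ((hEa a ha).1 v (Metric.ball_subset_closedBall hv)).1
      rw [mem_preimage, hAz, ← hav] at h2
      have h3 : g (A u) = A ((P ^ (a + 1)) (A.symm ((Fh ^ (-(a + 1)) : X ≃ₜ X) (g (A u))))) := by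
        rw [← hAz, A.right_inv h2, hz_neg']
      rw [h3]
      exact hAt _
    · rw [hgW _ hu, hAP]
      exact hAt _
  set Gt : X → X := fun u => A.symm (g (A u)) with hGt
  have hAG : ∀ u, A (Gt u) = g (A u) := fun u => A.right_inv (hga u)
  have hGinj : Function.Injective Gt := by
    intro u v huv
    have h2 : A (Gt u) = A (Gt v) := by rw [huv]
    rw [hAG, hAG] at h2
    exact hAinj (hginj h2)
  have hAT : ∀ (a : ℤ) u, A ((P ^ (-(a + 1))) (Gt ((P ^ a) u))) =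
      (Fh ^ (-(a + 1)) : X ≃ₜ X) (g ((Fh ^ a : X ≃ₜ X) (A u))) := by
    intro a u
    rw [← hAz, hAG, hAz]
  have hT : ∀ (a : ℤ) u, (P ^ (-(a + 1))) (Gt ((P ^ a) u)) =
      A.symm ((Fh ^ (-(a + 1)) : X ≃ₜ X) (g ((Fh ^ a : X ≃ₜ X) (A u)))) := by
    intro a u
    rw [← hAT, A.left_inv (hsrc _)]
  have hTf : ∀ a : ℤ, (fun u => (P ^ (-(a + 1))) (Gt ((P ^ a) u))) =
      fun u => A.symm ((Fh ^ (-(a + 1)) : X ≃ₜ X) (g ((Fh ^ a : X ≃ₜ X) (A u)))) :=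
    fun a => funext (hT a)
  have hTf' : ∀ a : ℤ, (fun u => (P ^ (-(a + 1))) (Gt ((P ^ a) u)) - u) =
      fun u => A.symm ((Fh ^ (-(a + 1)) : X ≃ₜ X) (g ((Fh ^ a : X ≃ₜ X) (A u)))) - u :=
    fun a => funext fun u => by rw [hT]
  have hTC : ∀ a : ℤ, ContDiff ℝ 1 (fun u => (P ^ (-(a + 1))) (Gt ((P ^ a) u))) := by
    intro a
    rw [hTf]
    have h2 : ContDiff ℝ 1 (fun u =>
        (Fh ^ (-(a + 1)) : X ≃ₜ X) (g ((Fh ^ a : X ≃ₜ X) (A u)))) :=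
      ((hz_smooth hF hF' _).of_le (by exact_mod_cast le_top)).comp
        (hgC.comp (((hz_smooth hF hF' a).comp hA).of_le (by exact_mod_cast le_top)))
    rw [contDiff_iff_contDiffAt]
    intro u
    have h3 : (Fh ^ (-(a + 1)) : X ≃ₜ X) (g ((Fh ^ a : X ≃ₜ X) (A u))) ∈ A.target := by
      rw [← hAT]
      exact hAt _
    exact ContDiffAt.comp u (g := A.symm)
      (((hA'.contDiffAt (A.open_target.mem_nhds h3))).of_le (by exact_mod_cast le_top))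
      h2.contDiffAt
  obtain ⟨a₀, ha₀, u₀, hu₀, rfl⟩ := (hWmem _).1 hy
  refine hco ρ₁ hρ₁ hρ₁ρ hdis' Gt hGinj ?_ (fun a _ => hTC a) ?_ ?_ a₀ ha₀ u₀ hu₀ n hn ?_
  · intro v hv
    apply hAinj
    rw [hAG, hgW, hAP]
    intro h2
    obtain ⟨a, ha, w, hw, haw⟩ := (hWmem _).1 h2
    exact hv a ha w hw (hAinj haw)
  · intro a ha u hu
    rw [hTf', hT]
    exact ((hEa a ha).1 u hu).2
  · intro a ha u hu u' hu'
    rw [hTf']
    exact (hEa a ha).2 u hu u' hu'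
  · apply hAinj
    have hit : ∀ (m : ℕ) u, g^[m] (A u) = A (Gt^[m] u) := by
      intro m
      induction m with
      | zero => intro u; rfl
      | succ m ih =>
        intro u
        rw [Function.iterate_succ_apply, ← hAG, ih, Function.iterate_succ_apply]
    rw [← hit, hper]

end Pool.Agent.H247.UC
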